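import Mathlib

/-! Pushout squares of rings, written with ring homomorphisms. -/

set_option autoImplicit false

namespace Pool.Agent.Lib.MP_16ef92_ag.FA

open TensorProduct

variable {R S R' S' : Type} [CommRing R] [CommRing S] [CommRing R'] [CommRing S']

/-- `S'` is the tensor product of `S` and `R'` over `R`. -/
structure PO (f : R →+* S) (g : R →+* R') (i : S →+* S') (j : R' →+* S') : Prop where
  comm : i.comp f = j.comp g
  ex : ∀ (Z : Type) [CommRing Z] (u : S →+* Z) (v : R' →+* Z), u.comp f = v.comp g →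
    ∃ w : S' →+* Z, w.comp i = u ∧ w.comp j = v
  uq : ∀ (Z : Type) [CommRing Z] (w w' : S' →+* Z), w.comp i = w'.comp i → w.comp j = w'.comp j →
    w = w'

theorem po_tensor [Algebra R S] [Algebra R R'] :
    PO (algebraMap R S) (algebraMap R R') (algebraMap S (S ⊗[R] R'))
      (Algebra.TensorProduct.includeRight (R := R) (A := S) (B := R')).toRingHom := by
  refine ⟨?_, fun Z _ u v h => ?_, fun Z _ w w' h1 h2 => ?_⟩
  · ext r
    simp [Algebra.algebraMap_eq_smul_one]
  · let : Algebra R Z := (u.comp (algebraMap R S)).toAlgebra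
    let u' : S →ₐ[R] Z := { u with commutes' := fun _ => rfl }
    let v' : R' →ₐ[R] Z := { v with commutes' := fun r => (RingHom.congr_fun h r).symm }
    refine ⟨(Algebra.TensorProduct.productMap u' v').toRingHom, ?_, ?_⟩
    · ext s
      simp [Algebra.TensorProduct.algebraMap_apply, u']
    · ext s
      simp [v']
  · exact Algebra.TensorProduct.ringHom_ext h1 h2

theorem exists_po (f : R →+* S) (g : R →+* R') :
    ∃ (S' : Type) (_ : CommRing S') (i : S →+* S') (j : R' →+* S'), PO f g i j := by
  let := f.toAlgebra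
  let := g.toAlgebra
  exact ⟨S ⊗[R] R', inferInstance, _, _, po_tensor⟩

namespace PO

variable {f : R →+* S} {g : R →+* R'} {i : S →+* S'} {j : R' →+* S'}

theorem symm (h : PO f g i j) : PO g f j i :=
  ⟨h.comm.symm, fun Z _ u v e => (h.ex Z v u e.symm).imp fun _ a => a.symm,
    fun Z _ w w' a b => h.uq Z w w' b a⟩

theorem equiv {S'' : Type} [CommRing S''] {i' : S →+* S''} {j' : R' →+* S''} (h : PO f g i j)
    (h' : PO f g i' j') : ∃ e : S' ≃+* S'', e.toRingHom.comp i = i' ∧ e.toRingHom.comp j = j' := by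
  obtain ⟨w, w1, w2⟩ := h.ex S'' i' j' h'.comm
  obtain ⟨v, v1, v2⟩ := h'.ex S' i j h.comm
  refine ⟨RingEquiv.ofRingHom w v (h'.uq _ _ _ ?_ ?_) (h.uq _ _ _ ?_ ?_), w1, w2⟩
  · rw [RingHom.comp_assoc, v1, w1, RingHom.id_comp]
  · rw [RingHom.comp_assoc, v2, w2, RingHom.id_comp]
  · rw [RingHom.comp_assoc, w1, v1, RingHom.id_comp]
  · rw [RingHom.comp_assoc, w2, v2, RingHom.id_comp]

/-- A property of ring maps that is stable under base change passes through the square. -/
theorem of_stable {P : ∀ {A B : Type} [CommRing A] [CommRing B], (A →+* B) → Prop}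
    (h1 : RingHom.RespectsIso P) (h2 : RingHom.IsStableUnderBaseChange P) (h : PO f g i j)
    (hg : P g) : P i := by
  let := f.toAlgebra
  let := g.toAlgebra
  obtain ⟨e, e1, -⟩ := (po_tensor (R := R) (S := S) (R' := R')).equiv h
  rw [← e1]
  exact h1.1 _ e (h2.tensorProduct S hg)

theorem etale (h : PO f g i j) (hg : g.Etale) : i.Etale :=
  h.of_stable RingHom.Etale.respectsIso RingHom.Etale.isStableUnderBaseChange hg

theorem fp (h : PO f g i j) (hg : g.FinitePresentation) : i.FinitePresentation :=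
  h.of_stable RingHom.finitePresentation_respectsIso
    RingHom.finitePresentation_isStableUnderBaseChange hg

theorem ft (h : PO f g i j) (hg : g.FiniteType) : i.FiniteType :=
  h.of_stable RingHom.finiteType_respectsIso RingHom.finiteType_isStableUnderBaseChange hg

theorem isIntegral (h : PO f g i j) (hg : g.IsIntegral) : i.IsIntegral :=
  h.of_stable RingHom.isIntegral_respectsIso RingHom.isIntegral_isStableUnderBaseChange hg

variable {T T' : Type} [CommRing T] [CommRing T'] {f' : S →+* T} {i' : T →+* T'} {j' : S' →+* T'}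

theorem paste (h : PO f g i j) (h' : PO f' i i' j') : PO (f'.comp f) g i' (j'.comp j) := by
  refine ⟨?_, fun Z _ u v e => ?_, fun Z _ w w' a b => h'.uq Z w w' a (h.uq Z _ _ ?_ b)⟩
  · rw [← RingHom.comp_assoc, h'.comm, RingHom.comp_assoc, h.comm, RingHom.comp_assoc]
  · obtain ⟨w, w1, w2⟩ := h.ex Z (u.comp f') v e
    obtain ⟨t, t1, t2⟩ := h'.ex Z u w w1.symm
    exact ⟨t, t1, by rw [← RingHom.comp_assoc, t2, w2]⟩
  · rw [RingHom.comp_assoc, RingHom.comp_assoc, ← h'.comm, ← RingHom.comp_assoc, a,
      RingHom.comp_assoc]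

theorem cancel (h : PO f g i j) (h' : PO (f'.comp f) g i' (j'.comp j))
    (hc : i'.comp f' = j'.comp i) : PO f' i i' j' := by
  refine ⟨hc, fun Z _ u v e => ?_, fun Z _ w w' a b => h'.uq Z w w' a ?_⟩
  · obtain ⟨w, w1, w2⟩ := h'.ex Z u (v.comp j)
      (by rw [← RingHom.comp_assoc, e, RingHom.comp_assoc, h.comm, RingHom.comp_assoc])
    refine ⟨w, w1, h.uq Z _ _ ?_ w2⟩
    rw [RingHom.comp_assoc, ← hc, ← RingHom.comp_assoc, w1, e]
  · rw [← RingHom.comp_assoc, b, RingHom.comp_assoc]

theorem of_equiv {S'' : Type} [CommRing S''] (h : PO f g i j) (e : S' ≃+* S'') :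
    PO f g (e.toRingHom.comp i) (e.toRingHom.comp j) := by
  refine ⟨by rw [RingHom.comp_assoc, h.comm, RingHom.comp_assoc], fun Z _ u v c => ?_,
    fun Z _ w w' a b => ?_⟩
  · obtain ⟨w, w1, w2⟩ := h.ex Z u v c
    refine ⟨w.comp e.symm.toRingHom, ?_, ?_⟩
    · rw [← w1]; ext x; simp
    · rw [← w2]; ext x; simp
  · have := h.uq Z (w.comp e.toRingHom) (w'.comp e.toRingHom) a b
    ext x
    obtain ⟨y, rfl⟩ := e.surjective x
    exact RingHom.congr_fun this y

theorem id_left (g : R →+* R') : PO (RingHom.id R) g g (RingHom.id R') :=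
  ⟨rfl, fun _ _ _ v e => ⟨v, e.symm, rfl⟩, fun _ _ _ _ _ b => b⟩

/-- Every element of the tensor product is a finite sum of products. -/
theorem induction (h : PO f g i j) {p : S' → Prop} (h0 : p 0) (h1 : ∀ s r, p (i s * j r))
    (h2 : ∀ x y, p x → p y → p (x + y)) (x : S') : p x := by
  let := f.toAlgebra
  let := g.toAlgebra
  obtain ⟨e, e1, e2⟩ := (po_tensor (R := R) (S := S) (R' := R')).equiv h
  obtain ⟨y, rfl⟩ := e.surjective x
  induction y with
  | zero => rwa [map_zero]
  | add x y hx hy => rw [map_add]; exact h2 _ _ hx hy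
  | tmul s r =>
    have a : s ⊗ₜ[R] r = algebraMap S (S ⊗[R] R') s *
        (Algebra.TensorProduct.includeRight (R := R) (A := S) (B := R')).toRingHom r := by
      simp [Algebra.TensorProduct.algebraMap_apply]
    rw [a, map_mul]
    have b1 := RingHom.congr_fun e1 s
    have b2 := RingHom.congr_fun e2 r
    exact (congrArg p (congrArg₂ _ b1 b2)).mpr (h1 s r)

end PO

theorem etale_id : (RingHom.id R).Etale := RingHom.Etale.of_bijective Function.bijective_id

theorem etale_comp {f : R →+* S} {g : S →+* S'} (hf : f.Etale) (hg : g.Etale) :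
    (g.comp f).Etale := RingHom.Etale.stableUnderComposition f g hf hg

theorem etale_of_comp {f : R →+* S} {g : S →+* S'} (hf : f.Etale) (hg : (g.comp f).Etale) :
    g.Etale := by
  algebraize [f, g, g.comp f]
  exact Algebra.Etale.of_restrictScalars R S S'

theorem etale_fp {f : R →+* S} (hf : f.Etale) : f.FinitePresentation := by
  algebraize [f]
  exact Algebra.Etale.finitePresentation

theorem etale_away (r : R) : (algebraMap R (Localization.Away r)).Etale :=
  RingHom.etale_algebraMap.2 (Algebra.Etale.of_isLocalizationAway r)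

end Pool.Agent.Lib.MP_16ef92_ag.FA
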