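import Pool.Agent.Lib.MP_16ef92_ag.FA.IE

/-! Ind-etale maps: base change, composition, examples. -/

set_option autoImplicit false

namespace Pool.Agent.Lib.MP_16ef92_ag.FA

open TensorProduct

variable {R S R' S' : Type} [CommRing R] [CommRing S] [CommRing R'] [CommRing S']

theorem PO.vanish {f : R →+* S} {g : R →+* R'} {i : S →+* S'} {j : R' →+* S'} (h : PO f g i j)
    {s : S} (hs : i s = 0) : ∃ (k l : ℕ) (m : Option (Fin k) → S) (a : Option (Fin k) → Fin l → R)
      (y : Fin l → R'), m none = s ∧ (∑ t, g (a none t) * y t = 1) ∧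
        (∀ u, ∑ t, g (a (some u) t) * y t = 0) ∧ ∀ t, ∑ u, f (a u t) * m u = 0 := by
  let := f.toAlgebra
  let := g.toAlgebra
  obtain ⟨e, e1, -⟩ := (po_tensor (R := R) (S := S) (R' := R')).equiv h
  have h0 : s ⊗ₜ[R] (1 : R') = 0 := by
    refine e.injective ?_
    rw [map_zero]
    exact (RingHom.congr_fun e1 s).trans hs
  have hP : (Submodule.span R {s}).FG := Submodule.fg_span (Set.finite_singleton s)
  obtain ⟨Q, hPQ, hQ, h1⟩ := TensorProduct.eq_zero_of_fg_of_subtype_eq_zero (N := R') hP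
    (t := (⟨s, Submodule.mem_span_singleton_self s⟩ : Submodule.span R {s}) ⊗ₜ[R] (1 : R')) h0
  have : Module.Finite R Q := Module.Finite.iff_fg.2 hQ
  obtain ⟨k, m, hm⟩ := Module.Finite.exists_fin (R := R) (M := Q)
  let m' : Option (Fin k) → Q := fun u =>
    u.elim ⟨s, hPQ (Submodule.mem_span_singleton_self s)⟩ m
  let n' : Option (Fin k) → R' := fun u => u.elim 1 fun _ => 0
  obtain ⟨l, a, y, h2, h3⟩ := TensorProduct.vanishesTrivially_of_sum_tmul_eq_zero R (m := m')
    (n := n') (by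
      rw [eq_top_iff, ← hm]
      exact Submodule.span_mono (by rintro _ ⟨u, rfl⟩; exact ⟨some u, rfl⟩)) (by
      rw [Fintype.sum_option]
      simp only [m', n', Option.elim, tmul_zero, Finset.sum_const_zero, add_zero]
      exact h1)
  refine ⟨k, l, fun u => (m' u).1, a, y, rfl, (h2 none).symm, fun u => (h2 (some u)).symm,
    fun t => ?_⟩
  have := congrArg Q.subtype (h3 t)
  rw [map_sum, map_zero] at this
  exact this

namespace IE

variable {g : R →+* R'}

theorem kill_po (hg : IE g) {f : R →+* S} {i : S →+* S'} {j : R' →+* S'} (h : PO f g i j)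
    {s : S} (hs : i s = 0) : ∃ U : Stage g, ∀ (Z : Type) [CommRing Z] (i' : S →+* Z)
      (j' : U.W →+* Z), i'.comp f = j'.comp U.a → i' s = 0 := by
  obtain ⟨k, l, m, a, y, h0, h1, h2, h3⟩ := h.vanish hs
  obtain ⟨U, w, hw⟩ := hg.lift y
  have e : ∀ r, U.d (U.a r) = g r := RingHom.congr_fun U.comm
  obtain ⟨V, b, hb, hz⟩ := hg.kill_le U (ι := Option (Fin k))
    (fun u => ∑ t, U.a (a u t) * w t - u.elim 1 fun _ => 0) (by
      rintro (_ | u)
      · simp [e, hw, h1]
      · simp [e, hw, h2])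
  refine ⟨V, fun Z _ i' j' hc => ?_⟩
  have e' : ∀ r, j' (b (U.a r)) = i' (f r) := fun r =>
    (congrArg j' (RingHom.congr_fun hb.1 r)).trans (RingHom.congr_fun hc r).symm
  have z : ∀ u : Option (Fin k), ∑ t, i' (f (a u t)) * j' (b (w t)) = u.elim 1 fun _ => 0 := by
    intro u
    have := congrArg j' (hz u)
    rw [map_zero, map_sub, map_sub, map_sum, map_sum, sub_eq_zero] at this
    simp only [map_mul, e'] at this
    rw [this]
    cases u <;> simp
  have z2 : ∑ u, i' (m u) * ∑ t, i' (f (a u t)) * j' (b (w t)) = 0 := by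
    simp only [Finset.mul_sum]
    rw [Finset.sum_comm]
    refine Finset.sum_eq_zero fun t _ => ?_
    have := congrArg (fun x => i' x * j' (b (w t))) (h3 t)
    simp only [map_sum, map_mul, map_zero, zero_mul, Finset.sum_mul] at this
    rw [← this]
    exact Finset.sum_congr rfl fun u _ => by ring
  simp only [z, Fintype.sum_option, Option.elim, mul_one, mul_zero, Finset.sum_const_zero,
    add_zero, h0] at z2
  exact z2

/-- The base change of a stage. -/
theorem exists_stage_po {f : R →+* S} {i : S →+* S'} {j : R' →+* S'} (h : PO f g i j)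
    (U : Stage g) : ∃ (X : Stage i) (j' : U.W →+* X.W), PO f U.a X.a j' ∧
      X.d.comp j' = j.comp U.d ∧ PO j' U.d X.d j := by
  obtain ⟨X, _, i', j', h'⟩ := exists_po f U.a
  obtain ⟨w, w1, w2⟩ := h'.ex S' i (j.comp U.d) (by rw [h.comm, RingHom.comp_assoc, U.comm])
  refine ⟨⟨X, i', w, h'.etale U.et, w1⟩, j', h', w2, ?_⟩
  refine (h'.symm.cancel (f' := U.d) (i' := j) (j' := w) ?_ w2.symm).symm
  rw [U.comm, w1]
  exact h.symm

theorem lift_po (hg : IE g) {f : R →+* S} {i : S →+* S'} {j : R' →+* S'} (h : PO f g i j)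
    (x : S') : ∃ U : Stage g, ∀ (Z : Type) [CommRing Z] (i' : S →+* Z) (j' : U.W →+* Z)
      (d : Z →+* S'), d.comp i' = i → d.comp j' = j.comp U.d → ∃ z, d z = x := by
  induction x using h.induction with
  | h0 => exact ⟨Stage.bot g, fun Z _ _ _ d _ _ => ⟨0, map_zero d⟩⟩
  | h1 s r =>
    obtain ⟨U, w, hw⟩ := hg.lift fun _ : Unit => r
    refine ⟨U, fun Z _ i' j' d a b => ⟨i' s * j' (w ()), ?_⟩⟩
    rw [map_mul, ← hw ()]
    exact congrArg₂ _ (RingHom.congr_fun a s) (RingHom.congr_fun b _)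
  | h2 x y hx hy =>
    obtain ⟨U, hU⟩ := hx
    obtain ⟨V, hV⟩ := hy
    obtain ⟨X, b, b', hb, hb'⟩ := U.exists_ub₂ V
    refine ⟨X, fun Z _ i' j' d a c => ?_⟩
    obtain ⟨z, hz⟩ := hU Z i' (j'.comp b) d a
      (by rw [← RingHom.comp_assoc, c, RingHom.comp_assoc, hb.2])
    obtain ⟨z', hz'⟩ := hV Z i' (j'.comp b') d a
      (by rw [← RingHom.comp_assoc, c, RingHom.comp_assoc, hb'.2])
    exact ⟨z + z', by rw [map_add, hz, hz']⟩

/-- Maps from finitely presented algebras to the base change factor through the base change of a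
stage. -/
theorem factor_po (hg : IE g) {f : R →+* S} {i : S →+* S'} {j : R' →+* S'} (h : PO f g i j)
    (C : Type) [CommRing C] (a : S →+* C) (c : C →+* S') (ha : a.FinitePresentation)
    (hc : c.comp a = i) : ∃ (X : Stage i) (b : C →+* X.W), b.comp a = X.a ∧ X.d.comp b = c ∧
      ∃ (U : Stage g) (j' : U.W →+* X.W), PO f U.a X.a j' ∧ X.d.comp j' = j.comp U.d := by
  refine factor _ (fun n r => ?_) C a c ha hc
  choose U hU using fun k => hg.lift_po h (r k)
  obtain ⟨V, b, hb⟩ := Stage.exists_ub U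
  obtain ⟨X, j', h1, h2, h3⟩ := exists_stage_po h V
  choose w hw using fun k => hU k X.W X.a (j'.comp (b k)) X.d X.comm
    (by rw [← RingHom.comp_assoc, h2, RingHom.comp_assoc, (hb k).2])
  refine ⟨X, w, hw, fun ι _ x hx => ?_⟩
  choose Y hY using fun k => (hg.stage V).kill_po h3 (hx k)
  obtain ⟨Y', b', hb'⟩ := Stage.exists_ub Y
  obtain ⟨Z, j'', h4, h5, -⟩ := exists_stage_po h3 Y'
  refine ⟨X.up Z, Z.a, X.le_up Z, fun k => hY k _ Z.a (j''.comp (b' k)) ?_, V.up Y', j'',
    (h1.symm.paste h4.symm).symm, h5⟩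
  rw [h4.comm, RingHom.comp_assoc, (hb' k).1]

theorem baseChange (hg : IE g) {f : R →+* S} {i : S →+* S'} {j : R' →+* S'} (h : PO f g i j) :
    IE i := fun C _ a c ha hc => by
  obtain ⟨X, b, h1, h2, -⟩ := hg.factor_po h C a c ha hc
  exact ⟨X, b, h1, h2⟩

/-- The base changes of stages are cofinal among the stages of the base change. -/
theorem cofinal_po (hg : IE g) {f : R →+* S} {i : S →+* S'} {j : R' →+* S'} (h : PO f g i j)
    (Y : Stage i) : ∃ (X : Stage i) (b : Y.W →+* X.W) (U : Stage g) (j' : U.W →+* X.W),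
      Y.Le X b ∧ PO f U.a X.a j' ∧ X.d.comp j' = j.comp U.d := by
  obtain ⟨X, b, h1, h2, U, j', h3, h4⟩ := hg.factor_po h Y.W Y.a Y.d (etale_fp Y.et) Y.comm
  exact ⟨X, b, U, j', ⟨h1, h2⟩, h3, h4⟩

/-- An etale algebra over the limit descends to a stage. -/
theorem descend (hg : IE g) {h : R' →+* S'} (hh : h.Etale) :
    ∃ (U : Stage g) (V : Type) (_ : CommRing V) (u : U.W →+* V) (v : V →+* S'),
      u.Etale ∧ PO U.d u h v := by
  let := h.toAlgebra
  have : Algebra.Etale R' S' := hh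
  obtain ⟨A, B, _, _, hA, hB, ⟨e⟩⟩ := Algebra.Etale.exists_subalgebra_fg ℤ R' S'
  have hfp : (algebraMap ℤ A).FinitePresentation :=
    RingHom.FinitePresentation.of_finiteType.1
      (RingHom.finiteType_algebraMap.2 ((Subalgebra.fg_iff_finiteType A).1 hA))
  obtain ⟨C, _, i, j, hC⟩ := exists_po (algebraMap ℤ R) (algebraMap ℤ A)
  obtain ⟨w, w1, w2⟩ := hC.ex R' g (algebraMap A R') (Subsingleton.elim _ _)
  obtain ⟨U, b, -, h2⟩ := hg C i w (hC.fp hfp) w1
  obtain ⟨V, _, u, v, hV⟩ := exists_po (b.comp j) (algebraMap A B)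
  have e1 : U.d.comp (b.comp j) = algebraMap A R' := by rw [← RingHom.comp_assoc, h2, w2]
  have hT := po_tensor (R := A) (S := R') (R' := B)
  have e2 : e.symm.toRingEquiv.toRingHom.comp (algebraMap R' (R' ⊗[A] B)) = h :=
    RingHom.ext fun r => e.symm.commutes r
  obtain ⟨t, t1, t2⟩ := hV.ex (R' ⊗[A] B) ((algebraMap R' _).comp U.d) _
    (by rw [RingHom.comp_assoc, e1]; exact hT.comm)
  have h3 : PO U.d u (algebraMap R' (R' ⊗[A] B)) t :=
    hV.cancel (by rw [e1, t2]; exact hT) t1.symm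
  refine ⟨U, V, inferInstance, u, e.symm.toRingEquiv.toRingHom.comp t,
    hV.etale (RingHom.etale_algebraMap.2 hB), ?_⟩
  rw [← e2]
  exact h3.of_equiv e.symm.toRingEquiv

theorem comp_etale (hg : IE g) {h : R' →+* S'} (hh : h.Etale) : IE (h.comp g) := by
  obtain ⟨U, V, _, u, v, hu, hP⟩ := hg.descend hh
  have := ((hg.stage U).baseChange hP.symm).etale_comp (FA.etale_comp U.et hu)
  rwa [← RingHom.comp_assoc, ← hP.comm, RingHom.comp_assoc, U.comm] at this

theorem comp (hg : IE g) {h : R' →+* S'} (hh : IE h) : IE (h.comp g) := by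
  intro C _ a c ha hc
  obtain ⟨X, _, i, j, hX⟩ := exists_po g a
  obtain ⟨w, w1, w2⟩ := hX.ex S' h c hc.symm
  obtain ⟨U, b, h1, h2⟩ := hh X i w (hX.fp ha) w1
  obtain ⟨V, b', h3, h4⟩ := hg.comp_etale U.et C a (b.comp j) ha
    (by rw [RingHom.comp_assoc, ← hX.comm, ← RingHom.comp_assoc, h1])
  refine ⟨⟨V.W, V.a, U.d.comp V.d, V.et, ?_⟩, b', h3, ?_⟩
  · rw [RingHom.comp_assoc, V.comm, ← RingHom.comp_assoc, U.comm]
  · change (U.d.comp V.d).comp b' = c
    rw [RingHom.comp_assoc, h4, ← RingHom.comp_assoc, h2, w2]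

/-- A directed union of etale algebras is ind-etale. -/
theorem of_union (h : ∀ (n : ℕ) (r : Fin n → R'), ∃ U : Stage g, Function.Injective U.d ∧
    ∀ k, r k ∈ U.d.range) : IE g := by
  refine of_lift_kill fun n r => ?_
  obtain ⟨U, h1, h2⟩ := h n r
  choose w hw using h2
  exact ⟨U, w, hw, fun x hx => ⟨U, RingHom.id _, Stage.Le.refl U, h1 (hx.trans (map_zero _).symm)⟩⟩

/-- A localisation is ind-etale. -/
theorem of_isLocalization [Algebra R R'] (M : Submonoid R) [IsLocalization M R'] :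
    IE (algebraMap R R') := by
  have st : ∀ m : M, ∃ U : Stage (algebraMap R R'), IsUnit (U.a m) ∧
      ∀ x : U.W, ∃ (r : R) (n : ℕ), x * U.a m ^ n = U.a r := fun m =>
    ⟨⟨Localization.Away m.1, algebraMap _ _,
      IsLocalization.Away.lift m.1 (IsLocalization.map_units R' m), etale_away _,
      IsLocalization.Away.lift_comp _ _⟩, IsLocalization.Away.algebraMap_isUnit m.1,
      fun x => by
        obtain ⟨n, r, h⟩ := IsLocalization.Away.surj m.1 x
        exact ⟨r, n, h⟩⟩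
  refine of_lift_kill fun n r => ?_
  obtain ⟨m, hm⟩ := IsLocalization.exist_integer_multiples_of_finite M r
  obtain ⟨U, hu, hU⟩ := st m
  have e : ∀ r, U.d (U.a r) = algebraMap R R' r := RingHom.congr_fun U.comm
  choose t ht using hm
  obtain ⟨v, hv⟩ := hu.exists_left_inv
  refine ⟨U, fun k => v * U.a (t k), fun k => ?_, fun x hx => ?_⟩
  · have := congrArg U.d hv
    rw [map_mul, map_one, e] at this
    rw [map_mul, e, ht, Algebra.smul_def, ← mul_assoc, this, one_mul]
  · obtain ⟨s, k, hs⟩ := hU x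
    have h0 : algebraMap R R' s = 0 := by rw [← e, ← hs, map_mul, hx, zero_mul]
    obtain ⟨m', hm'⟩ := (IsLocalization.map_eq_zero_iff M R' s).1 h0
    obtain ⟨V, hv', -⟩ := st m'
    obtain ⟨X, b, b', hb, hb'⟩ := U.exists_ub₂ V
    refine ⟨X, b, hb, ?_⟩
    have e1 : ∀ r, b (U.a r) = X.a r := RingHom.congr_fun hb.1
    have e2 : ∀ r, b' (V.a r) = X.a r := RingHom.congr_fun hb'.1
    have u1 : IsUnit (X.a m) := e1 m ▸ hu.map b
    have u2 : IsUnit (X.a m') := e2 m' ▸ hv'.map b'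
    have z : X.a s = 0 := by
      have := congrArg X.a hm'
      rwa [map_mul, map_zero, u2.mul_right_eq_zero] at this
    have := congrArg b hs
    rwa [map_mul, map_pow, e1, e1, z, (u1.pow k).mul_left_eq_zero] at this

end IE

end Pool.Agent.Lib.MP_16ef92_ag.FA
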