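import Pool.Agent.Lib.MP_16ef92_ag.FA.IE2

/-! Rings all of whose local rings are algebraically closed fields. -/

set_option autoImplicit false

namespace Pool.Agent.Lib.MP_16ef92_ag.FA

open TensorProduct Polynomial

variable {R T W L : Type} [CommRing R] [CommRing T] [CommRing W] [Field L]

/-- All local rings of `T` are algebraically closed fields. -/
structure AC (T : Type) [CommRing T] : Prop where
  loc : ∀ (L : Type) [Field L] (x : T →+* L) (a : T), x a = 0 →
    ∃ e, IsIdempotentElem e ∧ x e = 1 ∧ e * a = 0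
  alg : ∀ (L : Type) [Field L] (x : T →+* L) (P : T[X]) (ω : L), P.map x ≠ 0 →
    P.eval₂ x ω = 0 → ω ∈ x.range

/-- The factor of `T` cut out by the idempotent `e`. -/
abbrev Cut (e : T) : Type := T ⧸ Ideal.span {1 - e}

/-- The projection to the factor. -/
abbrev cut (e : T) : T →+* Cut e := Ideal.Quotient.mk _

theorem cut_self (e : T) : cut e e = 1 :=
  (Ideal.Quotient.eq.2 (Ideal.mem_span_singleton_self _) : cut e 1 = cut e e).symm

theorem cut_eq_zero {e a : T} (he : IsIdempotentElem e) : cut e a = 0 ↔ e * a = 0 := by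
  rw [Ideal.Quotient.eq_zero_iff_mem, Ideal.mem_span_singleton']
  refine ⟨?_, fun h => ⟨a, by linear_combination -h⟩⟩
  rintro ⟨b, rfl⟩
  linear_combination (-b) * he.eq

theorem etale_cut {e : T} (he : IsIdempotentElem e) : (cut e).Etale :=
  haveI := IsLocalization.Away.quotient_of_isIdempotentElem he
  (RingHom.etale_algebraMap (R := T) (S := Cut e)).2 (Algebra.Etale.of_isLocalizationAway e)

/-- A map that sends `e` to one factors through the factor. -/
def cutLift {e : T} (x : T →+* W) (h : x e = 1) : Cut e →+* W :=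
  Ideal.Quotient.lift _ x fun a ha => by
    obtain ⟨b, rfl⟩ := Ideal.mem_span_singleton'.1 ha
    rw [map_mul, map_sub, map_one, h, sub_self, mul_zero]

theorem cutLift_comp {e : T} (x : T →+* W) (h : x e = 1) : (cutLift x h).comp (cut e) = x := rfl

/-- Two maps from an etale algebra that agree on the base and at a point agree on a clopen
neighbourhood of the point. -/
theorem etale_agree {a : R →+* W} (ha : a.Etale) (u v : W →+* T) (h : u.comp a = v.comp a) :
    ∃ e : T, IsIdempotentElem e ∧ (∀ w, e * u w = e * v w) ∧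
      ∀ (Z : Type) [CommRing Z] (y : T →+* Z), y.comp u = y.comp v → y e = 1 := by
  let := a.toAlgebra
  have : Algebra.Etale R W := ha
  obtain ⟨p, p1, p2⟩ := (po_tensor (R := R) (S := W) (R' := W)).ex T u v h
  have q1 : ∀ w, p (w ⊗ₜ 1) = u w := RingHom.congr_fun p1
  have q2 : ∀ w, p (1 ⊗ₜ w) = v w := RingHom.congr_fun p2
  set t := Algebra.FormallyUnramified.elem R W
  have k : ∀ w, p t * u w = p t * v w := fun w => by
    have := congrArg p (Algebra.FormallyUnramified.one_tmul_mul_elem (R := R) w)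
    rw [map_mul, map_mul, q1, q2] at this
    linear_combination -this
  have k2 : ∀ z : W ⊗[R] W, p t * p z = p t * u (Algebra.TensorProduct.lmul' R z) := by
    intro z
    induction z with
    | zero => simp
    | add x y hx hy => simp only [map_add, mul_add, hx, hy]
    | tmul x y =>
      have : x ⊗ₜ[R] y = (x ⊗ₜ[R] (1 : W)) * (1 ⊗ₜ[R] y) := by simp
      rw [Algebra.TensorProduct.lmul'_apply_tmul, this, map_mul, map_mul, q1, q2]
      linear_combination (-u x) * k y
  refine ⟨p t, ?_, k, fun Z _ y hy => ?_⟩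
  · have := k2 t
    rwa [Algebra.FormallyUnramified.lmul_elem, map_one, mul_one] at this
  · have e : y.comp p = (y.comp u).comp (Algebra.TensorProduct.lmul' R).toRingHom := by
      refine (po_tensor (R := R) (S := W) (R' := W)).uq Z _ _ ?_ ?_
      · ext w
        simp [Algebra.TensorProduct.algebraMap_apply, q1]
      · ext w
        have := RingHom.congr_fun hy w
        simp only [RingHom.comp_apply] at this
        simp [q2, this]
    have := RingHom.congr_fun e t
    simpa [t, Algebra.FormallyUnramified.lmul_elem] using this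

namespace AC

theorem loc_fin (hT : AC T) (x : T →+* L) {ι : Type} [Finite ι] (a : ι → T) (h : ∀ k, x (a k) = 0) :
    ∃ e, IsIdempotentElem e ∧ x e = 1 ∧ ∀ k, e * a k = 0 := by
  cases nonempty_fintype ι
  choose e h1 h2 h3 using fun k => hT.loc L x (a k) (h k)
  refine ⟨∏ k, e k, ?_, by simp [h2], fun k => ?_⟩
  · rw [IsIdempotentElem, ← Finset.prod_mul_distrib]
    exact Finset.prod_congr rfl fun k _ => h1 k
  · obtain ⟨c, hc⟩ := Finset.dvd_prod_of_mem e (Finset.mem_univ k)
    rw [hc]
    linear_combination c * h3 k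

/-- The residue field at a point; it is algebraically closed and ind-etale over `T`. -/
theorem exists_field (hT : AC T) (x : T →+* L) : ∃ (K : Type) (_ : Field K) (π : T →+* K)
    (ι : K →+* L), Function.Surjective π ∧ ι.comp π = x ∧ IsAlgClosed K ∧ IE π := by
  let K : Subfield L :=
    { x.range with
      inv_mem' := by
        rintro _ ⟨a, rfl⟩
        by_cases h : x a = 0
        · exact ⟨0, by simp [h]⟩
        · refine hT.alg L x (C a * X - 1) _ (fun h0 => h ?_) (by simp [h])
          simpa [Polynomial.coeff_one] using congrArg (fun P => P.coeff 1) h0 }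
  let π : T →+* K := x.codRestrict K fun a => ⟨a, rfl⟩
  have hπ : Function.Surjective π := by
    rintro ⟨_, a, rfl⟩
    exact ⟨a, rfl⟩
  refine ⟨K, inferInstance, π, K.subtype, hπ, rfl, IsAlgClosed.of_exists_root _ fun P h1 h2 => ?_,
    IE.of_lift_kill fun n r => ?_⟩
  · obtain ⟨Q, rfl⟩ := Polynomial.map_surjective π hπ P
    let j := algebraMap K (AlgebraicClosure K)
    obtain ⟨ω, hω⟩ := IsAlgClosed.exists_eval₂_eq_zero j _ (degree_pos_of_irreducible h2).ne'
    obtain ⟨t, ht⟩ := hT.alg _ (j.comp π) Q ω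
      (by rw [← Polynomial.map_map]; exact (h1.map j).ne_zero) (by rwa [← eval₂_map])
    refine ⟨π t, j.injective ?_⟩
    rw [map_zero, ← hω, ← ht, RingHom.comp_apply, eval₂_at_apply]
  · choose w hw using fun k => hπ (r k)
    refine ⟨Stage.bot π, w, hw, fun a ha => ?_⟩
    obtain ⟨e, h1, h2, h3⟩ := hT.loc K π a ha
    exact ⟨⟨Cut e, cut e, cutLift π h2, etale_cut h1, rfl⟩, cut e, ⟨rfl, rfl⟩,
      (cut_eq_zero h1).2 h3⟩

theorem range_etale (hT : AC T) {a : T →+* W} (ha : a.Etale) (y : W →+* L) (w : W) :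
    y w ∈ (y.comp a).range := by
  obtain ⟨K, _, π, ι, hπ, hι, -, -⟩ := hT.exists_field (y.comp a)
  obtain ⟨V, _, i, j, h⟩ := exists_po π a
  obtain ⟨z, z1, z2⟩ := h.ex L ι y hι
  let := i.toAlgebra
  have : Algebra.Etale K V := h.etale ha
  have := Algebra.FormallyUnramified.finite_of_free K V
  obtain ⟨P, h1, h2⟩ := Algebra.IsIntegral.isIntegral (R := K) (j w)
  obtain ⟨Q, rfl⟩ := Polynomial.map_surjective π hπ P
  refine hT.alg L _ Q _ (by rw [← hι, ← Polynomial.map_map]; exact (h1.map ι).ne_zero) ?_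
  have := congrArg z h2
  rw [hom_eval₂, map_zero, eval₂_map] at this
  rw [← hι, ← z1, ← z2]
  exact this

/-- Etale algebras over `T` have sections through every point, on a clopen neighbourhood. -/
theorem sec (hT : AC T) {a : T →+* W} (ha : a.Etale) (y : W →+* L) :
    ∃ (e : T) (_ : IsIdempotentElem e) (he : y.comp a e = 1) (s : W →+* Cut e),
      s.comp a = cut e ∧ (cutLift (y.comp a) he).comp s = y := by
  let := a.toAlgebra
  obtain ⟨n, φ, hφ, s, hs⟩ := (etale_fp ha : Algebra.FinitePresentation T W).out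
  choose t ht using fun k => hT.range_etale ha y (φ (MvPolynomial.X k))
  let ψ : MvPolynomial (Fin n) T →+* T := MvPolynomial.eval₂Hom (RingHom.id T) t
  have e1 : ∀ r, φ (MvPolynomial.C r) = a r := φ.commutes
  have e : (y.comp a).comp ψ = y.comp φ.toRingHom := by
    refine MvPolynomial.ringHom_ext (fun r => ?_) fun k => ?_
    · simp [ψ, e1]
    · simpa [ψ] using ht k
  obtain ⟨ε, h1, h2, h3⟩ := hT.loc_fin (y.comp a) (fun x : s => ψ x.1) fun x => by
    refine (RingHom.congr_fun e x.1).trans ?_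
    have : x.1 ∈ RingHom.ker φ.toRingHom := hs ▸ Ideal.subset_span x.2
    rw [RingHom.comp_apply, RingHom.mem_ker.1 this, map_zero]
  have hk : RingHom.ker φ.toRingHom ≤ RingHom.ker ((cut ε).comp ψ) := by
    rw [← hs, Ideal.span_le]
    exact fun x hx => (cut_eq_zero h1).2 (h3 ⟨x, hx⟩)
  let β : W →+* Cut ε := φ.toRingHom.liftOfSurjective hφ ⟨(cut ε).comp ψ, hk⟩
  have hβ : β.comp φ.toRingHom = (cut ε).comp ψ := RingHom.liftOfRightInverse_comp _ _ _ _
  refine ⟨ε, h1, h2, β, RingHom.ext fun r => ?_, RingHom.ext fun x => ?_⟩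
  · refine (congrArg β (e1 r).symm).trans ((RingHom.congr_fun hβ (MvPolynomial.C r)).trans ?_)
    exact congrArg (cut ε) (MvPolynomial.eval₂Hom_C _ t r)
  · obtain ⟨p, rfl⟩ := hφ x
    exact (congrArg (cutLift (y.comp a) h2) (RingHom.congr_fun hβ p)).trans (RingHom.congr_fun e p)

theorem near_etale (hT : AC T) {a : T →+* W} (ha : a.Etale) (y : W →+* L) (w : W) :
    ∃ (ε : W) (t : T), IsIdempotentElem ε ∧ y ε = 1 ∧ ε * w = ε * a t := by
  obtain ⟨e, he, h1, s, h2, h3⟩ := hT.sec ha y
  have ie : IsIdempotentElem (a e) := he.map a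
  let v : Cut e →+* Cut (a e) := cutLift ((cut (a e)).comp a) (cut_self _)
  obtain ⟨η, k1, k2, k3⟩ := etale_agree ha (cut (a e)) (v.comp s)
    (by rw [RingHom.comp_assoc, h2]; rfl)
  obtain ⟨η, rfl⟩ := Ideal.Quotient.mk_surjective η
  obtain ⟨t, ht⟩ := Ideal.Quotient.mk_surjective (s w)
  have k4 : y η = 1 := k3 L (cutLift y h1) (by
    rw [cutLift_comp, ← RingHom.comp_assoc]
    refine h3.symm.trans (congrArg (fun u => RingHom.comp u s) ?_)
    exact Ideal.Quotient.ringHom_ext rfl)
  refine ⟨a e * η, t, ?_, by rw [map_mul, k4, mul_one]; exact h1, ?_⟩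
  · have := (cut_eq_zero (a := η * η - η) ie).1 (by rw [map_sub, map_mul, k1.eq, sub_self])
    rw [IsIdempotentElem]
    linear_combination η * η * ie.eq + this
  · have := (cut_eq_zero (a := η * w - η * a t) ie).1 (by
      rw [map_sub, map_mul, map_mul, k2, RingHom.comp_apply, ← ht]
      exact sub_self _)
    linear_combination this

/-- Ind-etale algebras over such rings are again such rings. -/
theorem ie (hT : AC T) {g : T →+* W} (hg : IE g) : AC W := by
  have near : ∀ (L : Type) [Field L] (y : W →+* L) (w : W),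
      ∃ (ε : W) (t : T), IsIdempotentElem ε ∧ y ε = 1 ∧ ε * w = ε * g t := by
    intro L _ y w
    obtain ⟨U, u, hu⟩ := hg.lift fun _ : Unit => w
    obtain ⟨ε, t, h1, h2, h3⟩ := hT.near_etale U.et (y.comp U.d) (u ())
    refine ⟨U.d ε, t, h1.map _, h2, ?_⟩
    rw [← hu (), ← map_mul, h3, map_mul]
    exact congrArg _ (RingHom.congr_fun U.comm t)
  have rg : ∀ (L : Type) [Field L] (y : W →+* L) (w : W), ∃ t, y (g t) = y w := by
    intro L _ y w
    obtain ⟨ε, t, -, h2, h3⟩ := near L y w
    have := congrArg y h3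
    rw [map_mul, map_mul, h2, one_mul, one_mul] at this
    exact ⟨t, this.symm⟩
  refine ⟨fun L _ y w hw => ?_, fun L _ y P ω h1 h2 => ?_⟩
  · obtain ⟨ε, t, h1, h2, h3⟩ := near L y w
    have := congrArg y h3
    rw [map_mul, map_mul, h2, one_mul, one_mul, hw] at this
    obtain ⟨e, k1, k2, k3⟩ := hT.loc L (y.comp g) t this.symm
    have k4 := congrArg g k3
    rw [map_mul, map_zero] at k4
    refine ⟨ε * g e, h1.mul (k1.map g), by rw [map_mul, h2, one_mul]; exact k2, ?_⟩
    linear_combination g e * h3 + ε * k4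
  · obtain ⟨Q, hQ⟩ := (mem_lifts (f := y.comp g) (P.map y)).1 ((lifts_iff_coeff_lifts _).2
      fun n => by rw [coeff_map]; exact rg L y _)
    obtain ⟨t, ht⟩ := hT.alg L (y.comp g) Q ω (hQ ▸ h1)
      (by rw [← eval_map, hQ, eval_map, h2])
    exact ⟨g t, ht⟩

theorem etale (hT : AC T) {g : T →+* W} (hg : g.Etale) : AC W := hT.ie (IE.of_etale hg)

theorem of_field (K : Type) [Field K] [IsAlgClosed K] : AC K := by
  refine ⟨fun L _ x a h => ⟨1, IsIdempotentElem.one, map_one x, ?_⟩, fun L _ x P ω h1 h2 => ?_⟩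
  · rw [one_mul, (map_eq_zero x).1 h]
  · let := x.toAlgebra
    have : IsAlgebraic K ω := ⟨P, fun h => h1 (by rw [h, Polynomial.map_zero]), h2⟩
    exact minpoly.mem_range_of_degree_eq_one K ω
      (IsAlgClosed.degree_eq_one_of_irreducible K (minpoly.irreducible this.isIntegral))

end AC

end Pool.Agent.Lib.MP_16ef92_ag.FA
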