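import Pool.Agent.Lib.MP_16ef92_ag.FA.PO

/-! Ind-etale ring maps. -/

set_option autoImplicit false

namespace Pool.Agent.Lib.MP_16ef92_ag.FA

open TensorProduct

variable {R S R' S' : Type} [CommRing R] [CommRing S] [CommRing R'] [CommRing S']

/-- An etale algebra through which `g` factors. -/
structure Stage (g : R →+* R') : Type 1 where
  W : Type
  [inst : CommRing W]
  a : R →+* W
  d : W →+* R'
  et : a.Etale
  comm : d.comp a = g

attribute [instance] Stage.inst

/-- `b` is a map of stages. -/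
def Stage.Le {g : R →+* R'} (U V : Stage g) (b : U.W →+* V.W) : Prop :=
  b.comp U.a = V.a ∧ V.d.comp b = U.d

/-- `g` is ind-etale: every map from a finitely presented algebra factors through a stage. -/
def IE (g : R →+* R') : Prop :=
  ∀ (C : Type) [CommRing C] (a : R →+* C) (c : C →+* R'), a.FinitePresentation → c.comp a = g →
    ∃ (U : Stage g) (b : C →+* U.W), b.comp a = U.a ∧ U.d.comp b = c

namespace Stage

variable {g : R →+* R'}

/-- The trivial stage. -/
def bot (g : R →+* R') : Stage g := ⟨R, RingHom.id R, g, etale_id, rfl⟩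

theorem Le.refl (U : Stage g) : U.Le U (RingHom.id _) := ⟨rfl, rfl⟩

theorem Le.trans {U V X : Stage g} {b : U.W →+* V.W} {b' : V.W →+* X.W} (h : U.Le V b)
    (h' : V.Le X b') : U.Le X (b'.comp b) :=
  ⟨by rw [RingHom.comp_assoc, h.1, h'.1], by rw [← RingHom.comp_assoc, h'.2, h.2]⟩

theorem Le.etale {U V : Stage g} {b : U.W →+* V.W} (h : U.Le V b) : b.Etale :=
  etale_of_comp U.et (h.1 ▸ V.et)

theorem bot_le (U : Stage g) : (bot g).Le U U.a := ⟨rfl, U.comm⟩

theorem exists_ub₂ (U V : Stage g) : ∃ (X : Stage g) (b : U.W →+* X.W) (b' : V.W →+* X.W),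
    U.Le X b ∧ V.Le X b' := by
  obtain ⟨X, _, i, j, h⟩ := exists_po U.a V.a
  obtain ⟨w, w1, w2⟩ := h.ex R' U.d V.d (U.comm.trans V.comm.symm)
  exact ⟨⟨X, i.comp U.a, w, etale_comp U.et (h.etale V.et),
    by rw [← RingHom.comp_assoc, w1, U.comm]⟩, i, j, ⟨rfl, w1⟩, ⟨h.comm.symm, w2⟩⟩

theorem exists_ub {ι : Type} [Finite ι] (U : ι → Stage g) :
    ∃ (X : Stage g) (b : ∀ k, (U k).W →+* X.W), ∀ k, (U k).Le X (b k) := by
  suffices h : ∀ s : Finset ι, ∃ X : Stage g, ∀ k ∈ s, ∃ b, (U k).Le X b by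
    cases nonempty_fintype ι
    obtain ⟨X, hX⟩ := h Finset.univ
    choose b hb using hX
    exact ⟨X, fun k => b k (Finset.mem_univ k), fun k => hb k _⟩
  classical
  intro s
  induction s using Finset.induction_on with
  | empty => exact ⟨bot g, fun k hk => absurd hk (Finset.notMem_empty k)⟩
  | insert k s _ ih =>
    obtain ⟨X, hX⟩ := ih
    obtain ⟨Y, b, b', h1, h2⟩ := exists_ub₂ (U k) X
    refine ⟨Y, fun k' hk' => ?_⟩
    rcases Finset.mem_insert.1 hk' with rfl | hk'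
    · exact ⟨b, h1⟩
    · obtain ⟨c, hc⟩ := hX k' hk'
      exact ⟨_, hc.trans h2⟩

/-- A stage of a stage. -/
def up (U : Stage g) (V : Stage U.d) : Stage g :=
  ⟨V.W, V.a.comp U.a, V.d, etale_comp U.et V.et, by rw [← RingHom.comp_assoc, V.comm, U.comm]⟩

theorem le_up (U : Stage g) (V : Stage U.d) : U.Le (U.up V) V.a := ⟨rfl, V.comm⟩

/-- A later stage as a stage over the earlier one. -/
def rel {U V : Stage g} {b : U.W →+* V.W} (h : U.Le V b) : Stage U.d :=
  ⟨V.W, b, V.d, h.etale, h.2⟩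

end Stage

namespace IE

variable {g : R →+* R'}

theorem of_etale (hg : g.Etale) : IE g := fun _ _ _ c _ h =>
  ⟨⟨R', g, RingHom.id _, hg, rfl⟩, c, h, rfl⟩

theorem stage (hg : IE g) (U : Stage g) : IE U.d := by
  intro C _ a c ha h
  obtain ⟨V, b, h1, h2⟩ := hg C (a.comp U.a) c (ha.comp (etale_fp U.et))
    (by rw [← RingHom.comp_assoc, h, U.comm])
  have hb : U.Le V (b.comp a) := ⟨h1, by rw [← RingHom.comp_assoc, h2, h]⟩
  exact ⟨Stage.rel hb, b, rfl, h2⟩

theorem lift (hg : IE g) {ι : Type} [Finite ι] (r : ι → R') :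
    ∃ (U : Stage g) (w : ι → U.W), ∀ k, U.d (w k) = r k := by
  obtain ⟨U, b, -, h2⟩ := hg (MvPolynomial ι R) MvPolynomial.C (MvPolynomial.eval₂Hom g r)
    (RingHom.finitePresentation_algebraMap.2 inferInstance) (by ext; simp)
  exact ⟨U, fun k => b (MvPolynomial.X k), fun k =>
    (RingHom.congr_fun h2 _).trans (MvPolynomial.eval₂Hom_X' g r k)⟩

theorem kill (hg : IE g) {ι : Type} [Finite ι] (r : ι → R) (h : ∀ k, g (r k) = 0) :
    ∃ U : Stage g, ∀ k, U.a (r k) = 0 := by
  have hle : ∀ x ∈ Ideal.span (Set.range r), g x = 0 := by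
    refine fun x hx => (?_ : Ideal.span (Set.range r) ≤ RingHom.ker g) hx
    rw [Ideal.span_le]
    rintro _ ⟨k, rfl⟩
    exact h k
  obtain ⟨U, b, h1, -⟩ := hg _ (Ideal.Quotient.mk (Ideal.span (Set.range r)))
    (Ideal.Quotient.lift _ g hle)
    (RingHom.FinitePresentation.of_surjective _ Ideal.Quotient.mk_surjective
      (by rw [Ideal.mk_ker]; exact Submodule.fg_span (Set.finite_range r))) (by ext; simp)
  refine ⟨U, fun k => ?_⟩
  rw [← h1, RingHom.comp_apply,
    Ideal.Quotient.eq_zero_iff_mem.2 (Ideal.subset_span (Set.mem_range_self k)), map_zero]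

theorem lift_le (hg : IE g) (U : Stage g) {ι : Type} [Finite ι] (r : ι → R') :
    ∃ (V : Stage g) (b : U.W →+* V.W) (w : ι → V.W), U.Le V b ∧ ∀ k, V.d (w k) = r k := by
  obtain ⟨V, w, h⟩ := (hg.stage U).lift r
  exact ⟨U.up V, V.a, w, U.le_up V, h⟩

theorem kill_le (hg : IE g) (U : Stage g) {ι : Type} [Finite ι] (r : ι → U.W)
    (h : ∀ k, U.d (r k) = 0) :
    ∃ (V : Stage g) (b : U.W →+* V.W), U.Le V b ∧ ∀ k, b (r k) = 0 := by
  obtain ⟨V, h⟩ := (hg.stage U).kill r h
  exact ⟨U.up V, V.a, U.le_up V, h⟩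

/-- Factorisation through a stage with a prescribed property. -/
theorem factor (P : Stage g → Prop)
    (h : ∀ (n : ℕ) (r : Fin n → R'), ∃ (U : Stage g) (w : Fin n → U.W), (∀ k, U.d (w k) = r k) ∧
      ∀ (ι : Type) [Finite ι] (x : ι → U.W), (∀ k, U.d (x k) = 0) →
        ∃ (V : Stage g) (b : U.W →+* V.W), U.Le V b ∧ (∀ k, b (x k) = 0) ∧ P V)
    (C : Type) [CommRing C] (a : R →+* C) (c : C →+* R') (ha : a.FinitePresentation)
    (hc : c.comp a = g) :
    ∃ (U : Stage g) (b : C →+* U.W), b.comp a = U.a ∧ U.d.comp b = c ∧ P U := by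
  let := a.toAlgebra
  obtain ⟨n, φ, hφ, s, hs⟩ := (ha : Algebra.FinitePresentation R C).out
  obtain ⟨U, w, h1, h2⟩ := h n fun k => c (φ (MvPolynomial.X k))
  let ψ : MvPolynomial (Fin n) R →+* U.W := MvPolynomial.eval₂Hom U.a w
  have e : U.d.comp ψ = c.comp φ.toRingHom := by
    refine MvPolynomial.ringHom_ext (fun r => ?_) fun k => ?_
    · have e1 : φ (MvPolynomial.C r) = a r := φ.commutes r
      have e2 := RingHom.congr_fun U.comm r
      have e3 := RingHom.congr_fun hc r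
      simp only [RingHom.comp_apply] at e2 e3
      simp [ψ, e1, e2, e3]
    · simp [ψ, h1]
  obtain ⟨X, b, hb, h4, hP⟩ := h2 s (fun x => ψ x.1) fun x => by
    refine (RingHom.congr_fun e x.1).trans ?_
    have : x.1 ∈ RingHom.ker φ.toRingHom := hs ▸ Ideal.subset_span x.2
    rw [RingHom.comp_apply, RingHom.mem_ker.1 this, map_zero]
  have hk : RingHom.ker φ.toRingHom ≤ RingHom.ker (b.comp ψ) := by
    rw [← hs, Ideal.span_le]
    exact fun x hx => h4 ⟨x, hx⟩
  let β : C →+* X.W := φ.toRingHom.liftOfSurjective hφ ⟨b.comp ψ, hk⟩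
  have hβ : β.comp φ.toRingHom = b.comp ψ := RingHom.liftOfRightInverse_comp _ _ _ _
  refine ⟨X, β, RingHom.ext fun r => ?_, RingHom.ext fun x => ?_, hP⟩
  · have e1 : φ (MvPolynomial.C r) = a r := φ.commutes r
    have e2 := RingHom.congr_fun hβ (MvPolynomial.C r)
    refine (congrArg β e1.symm).trans (e2.trans ?_)
    exact (congrArg b (MvPolynomial.eval₂Hom_C U.a w r)).trans (RingHom.congr_fun hb.1 r)
  · obtain ⟨y, rfl⟩ := hφ x
    refine (congrArg X.d (RingHom.congr_fun hβ y)).trans ?_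
    exact (RingHom.congr_fun hb.2 (ψ y)).trans (RingHom.congr_fun e y)

/-- Criterion: finite families lift to a stage at which elements that die in the limit die at a
later stage. -/
theorem of_lift_kill
    (h : ∀ (n : ℕ) (r : Fin n → R'), ∃ (U : Stage g) (w : Fin n → U.W), (∀ k, U.d (w k) = r k) ∧
      ∀ x : U.W, U.d x = 0 → ∃ (V : Stage g) (b : U.W →+* V.W), U.Le V b ∧ b x = 0) : IE g := by
  intro C _ a c ha hc
  obtain ⟨U, b, h1, h2, -⟩ := factor (fun _ => True) (fun n r => by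
    obtain ⟨U, w, h1, h2⟩ := h n r
    refine ⟨U, w, h1, fun ι _ x hx => ?_⟩
    choose V b hb h4 using fun k => h2 (x k) (hx k)
    obtain ⟨X, b', hb'⟩ := Stage.exists_ub fun k => Stage.rel (hb k)
    refine ⟨U.up X, X.a, U.le_up X, fun k => ?_, trivial⟩
    refine (RingHom.congr_fun (hb' k).1 (x k)).symm.trans ?_
    exact (congrArg (b' k) (h4 k)).trans (map_zero _)) C a c ha hc
  exact ⟨U, b, h1, h2⟩

theorem etale_comp {f : S →+* R} (hf : f.Etale) (hg : IE g) : IE (g.comp f) := by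
  intro C _ a c ha hc
  obtain ⟨X, _, i, j, h⟩ := exists_po f a
  obtain ⟨w, w1, w2⟩ := h.ex R' g c hc.symm
  obtain ⟨U, b, h1, h2⟩ := hg X i w (h.fp ha) w1
  refine ⟨⟨U.W, U.a.comp f, U.d, FA.etale_comp hf U.et, by rw [← RingHom.comp_assoc, U.comm]⟩,
    b.comp j, ?_, ?_⟩
  · change (b.comp j).comp a = U.a.comp f
    rw [RingHom.comp_assoc, ← h.comm, ← RingHom.comp_assoc, h1]
  · change U.d.comp (b.comp j) = c
    rw [← RingHom.comp_assoc, h2, w2]

end IE

end Pool.Agent.Lib.MP_16ef92_ag.FA
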