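import Pool.Agent.Lib.MP_16ef92_ag.FA.AC

/-! The ring `TR` of functions on the points of `R`, generated by `R` under pointwise inverses and
roots of monic polynomials. -/

set_option autoImplicit false

namespace Pool.Agent.Lib.MP_16ef92_ag.FA

open Polynomial

variable (Ω R : Type) [Field Ω] [CommRing R]

/-- Subrings of functions that contain `R` and are closed under inverses and integral elements. -/
structure TClosed (S : Subring ((R →+* Ω) → Ω)) : Prop where
  base : ∀ r : R, (fun x => x r) ∈ S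
  inv : ∀ t ∈ S, t⁻¹ ∈ S
  int : ∀ (t : (R →+* Ω) → Ω) (P : ((R →+* Ω) → Ω)[X]), P.Monic → (∀ n, P.coeff n ∈ S) →
    P.eval t = 0 → t ∈ S

/-- The smallest such subring. -/
noncomputable def TR : Subring ((R →+* Ω) → Ω) := sInf {S | TClosed Ω R S}

theorem tClosed_TR : TClosed Ω R (TR Ω R) :=
  ⟨fun r => Subring.mem_sInf.2 fun _ h => h.base r,
    fun t ht => Subring.mem_sInf.2 fun S h => h.inv t (Subring.mem_sInf.1 ht S h),
    fun t P h1 h2 h3 => Subring.mem_sInf.2 fun S h =>
      h.int t P h1 (fun n => Subring.mem_sInf.1 (h2 n) S h) h3⟩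

/-- The structure map. -/
noncomputable def toTR : R →+* TR Ω R :=
  (RingHom.pi fun x : R →+* Ω => x).codRestrict _ (tClosed_TR Ω R).base

variable {Ω R}

/-- Evaluation at a point. -/
noncomputable def evTR (x : R →+* Ω) : TR Ω R →+* Ω :=
  (Pi.evalRingHom (fun _ => Ω) x).comp (TR Ω R).subtype

theorem evTR_comp (x : R →+* Ω) : (evTR x).comp (toTR Ω R) = x := rfl

theorem TR_ext {s t : TR Ω R} (h : ∀ x, evTR x s = evTR x t) : s = t := Subtype.ext (funext h)

theorem TR_winv (a : TR Ω R) : ∃ b : TR Ω R, b.1 = a.1⁻¹ ∧ a * b * a = a ∧ b * a * b = b := by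
  refine ⟨⟨a.1⁻¹, (tClosed_TR Ω R).inv _ a.2⟩, rfl, TR_ext fun x => ?_, TR_ext fun x => ?_⟩
  · change a.1 x * (a.1 x)⁻¹ * a.1 x = a.1 x
    by_cases h : a.1 x = 0
    · rw [h, mul_zero]
    · rw [mul_inv_cancel₀ h, one_mul]
  · change (a.1 x)⁻¹ * a.1 x * (a.1 x)⁻¹ = (a.1 x)⁻¹
    by_cases h : a.1 x = 0
    · rw [h, mul_zero, zero_mul, inv_zero]
    · rw [inv_mul_cancel₀ h, one_mul]

theorem winv_map {T L : Type} [CommRing T] [Field L] (z : T →+* L) {a b : T} (h1 : a * b * a = a)
    (h2 : b * a * b = b) : z b = (z a)⁻¹ := by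
  have e1 := congrArg z h1
  have e2 := congrArg z h2
  rw [map_mul, map_mul] at e1 e2
  by_cases h : z a = 0
  · rw [← e2, h, mul_zero, zero_mul, inv_zero]
  · exact eq_inv_of_mul_eq_one_right (mul_right_cancel₀ h (e1.trans (one_mul _).symm))

theorem TR_root [IsAlgClosed Ω] (Q : (TR Ω R)[X]) (h1 : Q.Monic) (h2 : Q.natDegree ≠ 0) :
    ∃ t, Q.eval t = 0 := by
  have h3 : ∀ x : R →+* Ω, ∃ ω, Q.eval₂ (evTR x) ω = 0 := fun x => by
    have := (evTR x).domain_nontrivial
    obtain ⟨ω, hω⟩ := IsAlgClosed.exists_root (Q.map (evTR x)) (by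
      rw [h1.degree_map, degree_eq_natDegree h1.ne_zero]
      exact_mod_cast h2)
    exact ⟨ω, by rw [← eval_map]; exact hω⟩
  choose t ht using h3
  have h4 : (Q.map (TR Ω R).subtype).eval t = 0 := funext fun x => by
    have := hom_eval₂ Q (TR Ω R).subtype (Pi.evalRingHom (fun _ => Ω) x) t
    rw [eval_map]
    exact this.trans (ht x)
  refine ⟨⟨t, (tClosed_TR Ω R).int t _ (h1.map _) (fun n => ?_) h4⟩, Subtype.ext ?_⟩
  · rw [coeff_map]
    exact (Q.coeff n).2
  · rw [eval_map] at h4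
    exact (eval₂_at_apply (TR Ω R).subtype _).symm.trans h4

/-- A ring with weak inverses in which monic polynomials have roots. -/
theorem ac_of_roots {T : Type} [CommRing T] (h1 : ∀ a : T, ∃ b, a * b * a = a ∧ b * a * b = b)
    (h2 : ∀ Q : T[X], Q.Monic → Q.natDegree ≠ 0 → ∃ t, Q.eval t = 0) : AC T := by
  refine ⟨fun L _ x a h => ?_, fun L _ x P ω k1 k2 => ?_⟩
  · obtain ⟨b, hb, -⟩ := h1 a
    refine ⟨1 - a * b, ?_, by rw [map_sub, map_mul, h, zero_mul, map_one, sub_zero],
      by linear_combination -hb⟩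
    rw [IsIdempotentElem]
    linear_combination b * hb
  · have mon : ∀ (n : ℕ) (Q : T[X]), Q.natDegree = n → Q.Monic → Q.eval₂ x ω = 0 →
        ω ∈ x.range := by
      intro n
      induction n with
      | zero =>
        intro Q a b c
        rw [b.natDegree_eq_zero.1 a, eval₂_one] at c
        exact absurd c one_ne_zero
      | succ n ih =>
        intro Q a b c
        obtain ⟨t, ht⟩ := h2 Q b (by omega)
        have := x.domain_nontrivial
        have e := mul_divByMonic_eq_iff_isRoot.2 (ht : Q.IsRoot t)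
        rw [← e, eval₂_mul, eval₂_sub, eval₂_X, eval₂_C, mul_eq_zero, sub_eq_zero] at c
        refine c.elim (fun c => ⟨t, c.symm⟩) (ih _ ?_ ?_)
        · rw [natDegree_divByMonic _ (monic_X_sub_C t), a, natDegree_X_sub_C]
          rfl
        · exact (monic_X_sub_C t).of_mul_monic_left (e.symm ▸ b)
    have hl : (P.map x).leadingCoeff ∈ x.range := ⟨P.coeff _, (coeff_map x _).symm⟩
    obtain ⟨a, ha⟩ := hl
    obtain ⟨b, b1, b2⟩ := h1 a
    obtain ⟨Q, q1, -, q3⟩ := lifts_and_natDegree_eq_and_monic (f := x)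
      (p := P.map x * C (P.map x).leadingCoeff⁻¹) ((mem_lifts _).2 ⟨P * C b, by
        rw [Polynomial.map_mul, map_C, winv_map x b1 b2, ha]⟩) (monic_mul_leadingCoeff_inv k1)
    refine mon _ Q rfl q3 ?_
    rw [← eval_map, q1, eval_mul, eval_map, k2, zero_mul]

theorem ac_TR [IsAlgClosed Ω] : AC (TR Ω R) :=
  ac_of_roots (fun a => (TR_winv a).imp fun _ h => h.2) TR_root

/-- The residue fields of `TR` are algebraic over those of `R`. -/
theorem TR_algebraic {L : Type} [Field L] (z : TR Ω R →+* L) (t : TR Ω R) :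
    IsAlgebraic (z.comp (toTR Ω R)).range (z t) := by
  let A := (z.comp (toTR Ω R)).range
  let B := Subalgebra.algebraicClosure A L
  have h : TClosed Ω R ((B.toSubring.comap z).map (TR Ω R).subtype) := by
    refine ⟨fun r => ⟨toTR Ω R r, B.algebraMap_mem ⟨_, r, rfl⟩, rfl⟩, ?_, fun t P h1 h2 h3 => ?_⟩
    · rintro _ ⟨a, ha, rfl⟩
      obtain ⟨b, b0, b1, b2⟩ := TR_winv a
      refine ⟨b, ?_, b0⟩
      change IsAlgebraic A (z b)
      rw [winv_map z b1 b2]
      exact IsAlgebraic.inv ha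
    · have ht : t ∈ TR Ω R := (tClosed_TR Ω R).int t P h1
        (fun n => by obtain ⟨a, -, ha⟩ := h2 n; exact ha ▸ a.2) h3
      refine ⟨⟨t, ht⟩, ?_, rfl⟩
      let S := B.toSubring.comap z
      obtain ⟨Q, q1, -, q3⟩ := lifts_and_natDegree_eq_and_monic
        (f := (TR Ω R).subtype.comp S.subtype) (p := P) ((lifts_iff_coeff_lifts _).2 fun n => by
          obtain ⟨a, a1, a2⟩ := h2 n
          exact ⟨⟨a, a1⟩, a2⟩) h1
      have e : Q.eval₂ S.subtype ⟨t, ht⟩ = 0 := Subtype.ext (by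
        rw [← q1, eval_map] at h3
        exact (hom_eval₂ Q S.subtype (TR Ω R).subtype ⟨t, ht⟩).trans h3)
      let u : S →+* B := (z.comp S.subtype).codRestrict B.toSubring fun a => a.2
      have hi : IsIntegral B (z ⟨t, ht⟩) := ⟨Q.map u, q3.map u, by
        have := congrArg z e
        rw [hom_eval₂, map_zero] at this
        rw [eval₂_map]
        exact this⟩
      exact hi.trans_isAlgebraic A
  obtain ⟨a, h1, h2⟩ := Subring.mem_sInf.1 t.2 _ h
  rw [← (Subtype.ext h2 : a = t)]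
  exact h1

theorem TR_poly {L : Type} [Field L] (z : TR Ω R →+* L) (t : TR Ω R) : ∃ P : R[X],
    P.map (z.comp (toTR Ω R)) ≠ 0 ∧ P.eval₂ (z.comp (toTR Ω R)) (z t) = 0 := by
  obtain ⟨Q, h1, h2⟩ := TR_algebraic z t
  obtain ⟨P, rfl⟩ := Polynomial.map_surjective _ (z.comp (toTR Ω R)).rangeRestrict_surjective Q
  refine ⟨P, fun h => h1 (Polynomial.map_injective (z.comp (toTR Ω R)).range.subtype
    Subtype.val_injective ?_), ?_⟩
  · rw [Polynomial.map_map, Polynomial.map_zero]
    exact h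
  · rw [aeval_def, eval₂_map] at h2
    exact h2

/-- If every prime of `R` is the kernel of a point, the same holds for `TR`. -/
theorem good_TR [IsAlgClosed Ω] (hR : ∀ p : Ideal R, p.IsPrime → ∃ x : R →+* Ω, RingHom.ker x = p)
    (q : Ideal (TR Ω R)) (hq : q.IsPrime) : ∃ x : TR Ω R →+* Ω, RingHom.ker x = q := by
  let z : TR Ω R →+* q.ResidueField := algebraMap _ _
  obtain ⟨K, _, π, ι, hπ, hι, -, -⟩ := ac_TR.exists_field z
  let w := π.comp (toTR Ω R)
  obtain ⟨x, hx⟩ := hR (RingHom.ker w) (RingHom.ker_isPrime w)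
  let A := w.range
  let x' : A →+* Ω := w.rangeRestrict.liftOfSurjective w.rangeRestrict_surjective
    ⟨x, by rw [RingHom.ker_rangeRestrict, hx]⟩
  have hx' : Function.Injective x' := (injective_iff_map_eq_zero _).2 fun a ha => by
    obtain ⟨r, rfl⟩ := w.rangeRestrict_surjective a
    have : x r = 0 := (RingHom.liftOfRightInverse_comp_apply _ _ _ _ r).symm.trans ha
    exact Subtype.ext (RingHom.mem_ker.1 (hx ▸ RingHom.mem_ker.2 this))
  let := x'.toAlgebra
  have : Algebra.IsAlgebraic A K := ⟨fun k => by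
    obtain ⟨t, rfl⟩ := hπ k
    exact TR_algebraic π t⟩
  have : FaithfulSMul A Ω := (faithfulSMul_iff_algebraMap_injective _ _).2 hx'
  let φ : K →ₐ[A] Ω := IsAlgClosed.lift
  refine ⟨φ.toRingHom.comp π, ?_⟩
  rw [RingHom.ker_comp_of_injective _ φ.toRingHom.injective,
    ← RingHom.ker_comp_of_injective π ι.injective, hι]
  exact Ideal.ker_algebraMap_residueField q

end Pool.Agent.Lib.MP_16ef92_ag.FA
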